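import Pool.Agent.W331.CR.All

/-!
# A countable group of infinite critical regularity which is not smooth

Full (positive) answer to question Q1 of problem MP_4516ee_al, for `M = I` and for `M = S^1`.
The definitions `DiffI`, `DiffS` (and `ext01`, `IsLift`) are in `Pool/Agent/W331/CR/Defs.lean`.
-/

set_option autoImplicit false

namespace Pool.Agent.Results.MP_4516ee_al.CountableNotSmooth

open Set Function
open scoped ContDiff
open Pool.Agent.W331.CR (ext01 IsLift DiffI DiffS)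

/-- `Diff_+^{k+τ}([0,1])`: the orientation preserving `C^k` diffeomorphisms of `[0,1]` whose `k`-th
derivative is `τ`-Hölder continuous on `[0,1]` (no condition when `τ = 0`) -/
def HolderDiffI (k : ℕ) (τ : ℝ) : Set (Icc (0:ℝ) 1 ≃o Icc (0:ℝ) 1) :=
  {φ | φ ∈ DiffI k ∧ (τ = 0 ∨ ∃ C : ℝ, ∀ x ∈ Icc (0:ℝ) 1, ∀ y ∈ Icc (0:ℝ) 1,
    |iteratedDerivWithin k (ext01 φ) (Icc 0 1) x - iteratedDerivWithin k (ext01 φ) (Icc 0 1) y| ≤
      C * |x - y| ^ τ)}

/-- `Diff_+^{k+τ}(S^1)`: the orientation preserving `C^k` diffeomorphisms of the circle `ℝ/ℤ` having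
a lift to the line whose `k`-th derivative is `τ`-Hölder continuous (no condition when `τ = 0`) -/
def HolderDiffS (k : ℕ) (τ : ℝ) : Set (Equiv.Perm (AddCircle (1:ℝ))) :=
  {σ | ∃ F : ℝ ≃o ℝ, IsLift k F ∧ (∀ x : ℝ, σ (x : AddCircle (1:ℝ)) = ((F x : ℝ) : AddCircle (1:ℝ))) ∧
    (τ = 0 ∨ ∃ C : ℝ, ∀ x y : ℝ,
      |iteratedDeriv k (F : ℝ → ℝ) x - iteratedDeriv k (F : ℝ → ℝ) y| ≤ C * |x - y| ^ τ)}

/-- There is a countable group which for every real number `r = k + τ` (`k ≥ 1` an integer and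
`0 ≤ τ < 1`) embeds into `Diff_+^r([0,1])` and into `Diff_+^r(S^1)`, but embeds neither into
`Diff_+^∞([0,1])` nor into `Diff_+^∞(S^1)`. -/
theorem result : ∃ (G : Type) (_ : Group G), Countable G ∧
    (∀ (k : ℕ) (τ : ℝ), 1 ≤ k → 0 ≤ τ → τ < 1 →
      (∃ φ : G →* (Icc (0:ℝ) 1 ≃o Icc (0:ℝ) 1), Injective φ ∧ ∀ g, φ g ∈ HolderDiffI k τ) ∧
      (∃ φ : G →* Equiv.Perm (AddCircle (1:ℝ)), Injective φ ∧ ∀ g, φ g ∈ HolderDiffS k τ)) ∧
    (¬ ∃ φ : G →* DiffI ∞, Injective φ) ∧ (¬ ∃ φ : G →* DiffS ∞, Injective φ) :=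
  Pool.Agent.W331.CR.t_final4516

end Pool.Agent.Results.MP_4516ee_al.CountableNotSmooth
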